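import Pool.Agent.Helper85_Idx.Stmts

/-!
Squad IDX (MP_429423_al), module BAL (helper75): the balanced context.
-/

set_option autoImplicit false

namespace Pool.Agent.Idx.H75B

open Pool.Agent.Idx

variable {T : Type} {Γ : Gram T}

/-! ### Derivations -/

theorem D_cons {n : ℕ} {x : T ⊕ Γ.N} {α : List (T ⊕ Γ.N)} {τ : List Γ.F} {φ : List (T ⊕ Γ.N)}
    (h : D Γ n (x :: α) τ φ) : ∃ n1 n2 φ1 φ2, n1 + n2 = n ∧ φ = φ1 ++ φ2 ∧ D Γ n1 [x] τ φ1 ∧
      D Γ n2 α τ φ2 := by
  cases h with
  | term t h => exact ⟨0, _, [Sum.inl t], _, by simp, rfl, D.term t (D.nil _), h⟩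
  | ret A h => exact ⟨0, _, [Sum.inr A], _, by simp, rfl, D.ret A (D.nil _), h⟩
  | r1 h1 h2 h3 h4 =>
    have h5 := D.r1 h1 h2 h3 (D.nil _)
    rw [List.append_nil] at h5
    exact ⟨_, _, _, _, by omega, rfl, h5, h4⟩
  | r2 h1 h2 h3 h4 =>
    have h5 := D.r2 h1 h2 h3 (D.nil _)
    rw [List.append_nil] at h5
    exact ⟨_, _, _, _, by omega, rfl, h5, h4⟩
  | r3 h1 h2 h3 =>
    have h5 := D.r3 h1 h2 (D.nil _)
    rw [List.append_nil] at h5
    exact ⟨_, _, _, _, by omega, rfl, h5, h3⟩

theorem D_nil {n : ℕ} {τ : List Γ.F} {φ : List (T ⊕ Γ.N)} (h : D Γ n [] τ φ) :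
    n = 0 ∧ φ = [] := by
  cases h
  exact ⟨rfl, rfl⟩

theorem D_term {n : ℕ} {t : T} {α : List (T ⊕ Γ.N)} {τ : List Γ.F} {φ : List (T ⊕ Γ.N)}
    (h : D Γ n (Sum.inl t :: α) τ φ) : ∃ φ', φ = Sum.inl t :: φ' ∧ D Γ n α τ φ' := by
  cases h with
  | term t h => exact ⟨_, rfl, h⟩

theorem D_app {n1 n2 : ℕ} {α β : List (T ⊕ Γ.N)} {τ : List Γ.F} {φ1 φ2 : List (T ⊕ Γ.N)}
    (h1 : D Γ n1 α τ φ1) (h2 : D Γ n2 β τ φ2) : D Γ (n1 + n2) (α ++ β) τ (φ1 ++ φ2) := by
  induction h1 with
  | nil τ => simpa using h2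
  | term t _ ih => exact D.term t (ih h2)
  | ret A _ ih => exact D.ret A (ih h2)
  | @r1 n m A γ α τ φ ψ a1 a2 a3 a4 ih3 ih4 =>
    have := D.r1 a1 a2 a3 (ih4 h2)
    rw [List.append_assoc]
    exact (by omega : n + (m + n2) + 1 = n + m + 1 + n2) ▸ this
  | @r2 n m A B f α τ φ ψ a1 a2 a3 a4 ih3 ih4 =>
    have := D.r2 a1 a2 a3 (ih4 h2)
    rw [List.append_assoc]
    exact (by omega : n + (m + n2) + 1 = n + m + 1 + n2) ▸ this
  | @r3 n m A f γ α τ φ ψ a1 a2 a3 ih2 ih3 =>
    have := D.r3 a1 a2 (ih3 h2)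
    rw [List.append_assoc]
    exact (by omega : n + (m + n2) + 1 = n + m + 1 + n2) ▸ this

theorem D_refl (α : List (T ⊕ Γ.N)) : D Γ 0 α [] α := by
  induction α with
  | nil => exact D.nil _
  | cons x α ih =>
    cases x with
    | inl t => exact D.term t ih
    | inr A => exact D.ret A ih

theorem D_empty {n : ℕ} {α φ : List (T ⊕ Γ.N)} (h : D Γ n α [] φ) : φ = α := by
  generalize hτ : ([] : List Γ.F) = τ at h
  induction h with
  | nil τ => rfl
  | term t _ ih => rw [ih hτ]
  | ret A _ ih => rw [ih hτ]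
  | r1 a1 _ _ _ _ _ => exact absurd hτ.symm a1
  | r2 a1 _ _ _ _ _ => exact absurd hτ.symm a1
  | r3 _ _ _ _ _ => exact absurd hτ (by simp)

/-- The stack lemma. -/
theorem D_stack {n : ℕ} {α φ : List (T ⊕ Γ.N)} {τ : List Γ.F} (h : D Γ n α τ φ) :
    ∀ τ1 τ2 : List Γ.F, τ = τ1 ++ τ2 → ∃ a b ψ, a + b = n ∧ D Γ a α τ1 ψ ∧ D Γ b ψ τ2 φ := by
  induction h with
  | nil τ =>
    intro τ1 τ2 _
    exact ⟨0, 0, [], rfl, D.nil _, D.nil _⟩
  | term t _ ih =>
    intro τ1 τ2 hτ
    obtain ⟨a, b, ψ, h1, h2, h3⟩ := ih τ1 τ2 hτ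
    exact ⟨a, b, Sum.inl t :: ψ, h1, D.term t h2, D.term t h3⟩
  | @ret n A α φ h0 ih =>
    intro τ1 τ2 hτ
    obtain ⟨h1, h2⟩ := List.append_eq_nil_iff.1 hτ.symm
    subst h1 h2
    exact ⟨0, n, Sum.inr A :: α, by simp, D_refl _, D.ret A h0⟩
  | @r1 n m A γ α τ φ ψ a1 a2 a3 a4 ih3 ih4 =>
    intro τ1 τ2 hτ
    cases τ1 with
    | nil =>
      simp only [List.nil_append] at hτ
      subst hτ
      exact ⟨0, n + m + 1, Sum.inr A :: α, by simp, D_refl _, D.r1 a1 a2 a3 a4⟩
    | cons g τ1 =>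
      obtain ⟨a, b, ψ1, h1, h2, h3⟩ := ih3 (g :: τ1) τ2 hτ
      obtain ⟨a', b', ψ2, h1', h2', h3'⟩ := ih4 (g :: τ1) τ2 hτ
      exact ⟨a + a' + 1, b + b', ψ1 ++ ψ2, by omega, D.r1 (by simp) a2 h2 h2', D_app h3 h3'⟩
  | @r2 n m A B f α τ φ ψ a1 a2 a3 a4 ih3 ih4 =>
    intro τ1 τ2 hτ
    cases τ1 with
    | nil =>
      simp only [List.nil_append] at hτ
      subst hτ
      exact ⟨0, n + m + 1, Sum.inr A :: α, by simp, D_refl _, D.r2 a1 a2 a3 a4⟩
    | cons g τ1 =>
      obtain ⟨a, b, ψ1, h1, h2, h3⟩ := ih3 (f :: g :: τ1) τ2 (by rw [hτ]; rfl)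
      obtain ⟨a', b', ψ2, h1', h2', h3'⟩ := ih4 (g :: τ1) τ2 hτ
      exact ⟨a + a' + 1, b + b', ψ1 ++ ψ2, by omega, D.r2 (by simp) a2 h2 h2', D_app h3 h3'⟩
  | @r3 n m A f γ α τ φ ψ a1 a2 a3 ih2 ih3 =>
    intro τ1 τ2 hτ
    cases τ1 with
    | nil =>
      simp only [List.nil_append] at hτ
      subst hτ
      exact ⟨0, n + m + 1, Sum.inr A :: α, by simp, D_refl _, D.r3 a1 a2 a3⟩
    | cons g τ1 =>
      simp only [List.cons_append, List.cons.injEq] at hτ
      obtain ⟨rfl, hτ⟩ := hτ
      obtain ⟨a, b, ψ1, h1, h2, h3⟩ := ih2 τ1 τ2 hτ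
      obtain ⟨a', b', ψ2, h1', h2', h3'⟩ := ih3 (f :: τ1) τ2 (by rw [hτ]; rfl)
      exact ⟨a + a' + 1, b + b', ψ1 ++ ψ2, by omega, D.r3 a1 h2 h2', D_app h3 h3'⟩

theorem D_inv {n : ℕ} {A : Γ.N} {f : Γ.F} {φ : List (T ⊕ Γ.N)} (h : D Γ n [Sum.inr A] [f] φ) :
    (∃ β n1, n1 < n ∧ (A, β) ∈ Γ.R1 ∧ D Γ n1 β [f] φ) ∨
    (∃ B g n1, n1 < n ∧ (A, B, g) ∈ Γ.R2 ∧ D Γ n1 [Sum.inr B] [g, f] φ) ∨
    ∃ β n1, n1 < n ∧ (A, f, β) ∈ Γ.R3 ∧ D Γ n1 β [] φ := by
  cases h with
  | r1 h1 h2 h3 h4 =>
    obtain ⟨rfl, rfl⟩ := D_nil h4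
    rw [List.append_nil]
    exact Or.inl ⟨_, _, by omega, h2, h3⟩
  | r2 h1 h2 h3 h4 =>
    obtain ⟨rfl, rfl⟩ := D_nil h4
    rw [List.append_nil]
    exact Or.inr (Or.inl ⟨_, _, _, by omega, h2, h3⟩)
  | r3 h1 h2 h3 =>
    obtain ⟨rfl, rfl⟩ := D_nil h3
    rw [List.append_nil]
    exact Or.inr (Or.inr ⟨_, _, by omega, h1, h2⟩)

/-! ### Annotated forms -/

theorem form_append (c d : List (Item Γ)) : form (c ++ d) = form c ++ form d := by
  simp [form]

theorem flat_append (c d : List (Item Γ)) : flat (c ++ d) = flat c ++ flat d := by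
  simp [flat]

theorem mask_append (c d : List (Item Γ)) : mask (c ++ d) = mask c ++ mask d := by
  simp [mask]

theorem flat_cons (x : Item Γ) (d : List (Item Γ)) : flat (x :: d) = iword x ++ flat d := by
  simp [flat]

theorem mask_cons (x : Item Γ) (d : List (Item Γ)) : mask (x :: d) = imask x ++ mask d := by
  simp [mask]

theorem mask_length (c : List (Item Γ)) : (mask c).length = (flat c).length := by
  induction c with
  | nil => rfl
  | cons x c ih =>
    rw [mask_cons, flat_cons, List.length_append, List.length_append, ih]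
    congr 1
    cases x with
    | inl t => rfl
    | inr y => simp [imask, iword]

theorem Fill_append {σ : List Γ.F} {c d : List (Item Γ)} :
    Fill σ (c ++ d) ↔ Fill σ c ∧ Fill σ d := by
  constructor
  · intro h
    exact ⟨fun A u b hm => h A u b (by simp [hm]), fun A u b hm => h A u b (by simp [hm])⟩
  · rintro ⟨h1, h2⟩ A u b hm
    rcases List.mem_append.1 hm with hm | hm
    · exact h1 A u b hm
    · exact h2 A u b hm

theorem Flags_append {Big : ℕ → ℕ → Prop} (c d : List (Item Γ)) : ∀ s,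
    (Flags Big s (c ++ d) ↔ Flags Big s c ∧ Flags Big (s + (flat c).length) d) := by
  induction c with
  | nil => intro s; simp [Flags, flat]
  | cons x c ih =>
    intro s
    cases x with
    | inl t =>
      have e : s + 1 + (flat c).length = s + (flat (Sum.inl t :: c : List (Item Γ))).length := by
        rw [flat_cons, List.length_append]
        simp [iword]
        omega
      show Flags Big (s + 1) (c ++ d) ↔ Flags Big (s + 1) c ∧ _
      rw [ih (s + 1), e]
    | inr y =>
      obtain ⟨A, u, b⟩ := y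
      have e : s + u.length + (flat c).length
          = s + (flat (Sum.inr (A, u, b) :: c : List (Item Γ))).length := by
        rw [flat_cons, List.length_append]
        simp [iword]
        omega
      show ((b = true ↔ Big s (s + u.length)) ∧ Flags Big (s + u.length) (c ++ d)) ↔
        ((b = true ↔ Big s (s + u.length)) ∧ Flags Big (s + u.length) c) ∧ _
      rw [ih (s + u.length), e]
      tauto

/-- Filling a form. -/
theorem D_fill {n : ℕ} {α φ : List (T ⊕ Γ.N)} {τ σ : List Γ.F} (h : D Γ n α τ φ) :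
    ∀ c : List (Item Γ), form c = φ → Fill σ c →
      ∃ m, D Γ m α (τ ++ σ) ((flat c).map Sum.inl) := by
  induction h with
  | nil τ =>
    intro c hc _
    have : c = [] := by simpa [form] using hc
    subst this
    exact ⟨0, by simpa [flat] using D.nil _⟩
  | term t _ ih =>
    intro c hc hF
    cases c with
    | nil => simp [form] at hc
    | cons x c =>
      simp only [form, List.map_cons, List.cons.injEq] at hc
      obtain ⟨hx, hc⟩ := hc
      cases x with
      | inr y => simp [isym] at hx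
      | inl t' =>
        simp only [isym, Sum.inl.injEq] at hx
        subst hx
        obtain ⟨m, hm⟩ := ih c hc (Fill_append.1 (show Fill σ ([Sum.inl t'] ++ c) from hF)).2
        exact ⟨m, by rw [flat_cons]; simpa [iword] using D.term _ hm⟩
  | ret A _ ih =>
    intro c hc hF
    cases c with
    | nil => simp [form] at hc
    | cons x c =>
      simp only [form, List.map_cons, List.cons.injEq] at hc
      obtain ⟨hx, hc⟩ := hc
      cases x with
      | inl y => simp [isym] at hx
      | inr y =>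
        obtain ⟨A', u, b⟩ := y
        simp only [isym, Sum.inr.injEq] at hx
        subst hx
        obtain ⟨m, hm⟩ := ih c hc (Fill_append.1 (show Fill σ ([Sum.inr (A', u, b)] ++ c) from hF)).2
        obtain ⟨k, hk⟩ := hF A' u b (by simp)
        refine ⟨k + m, ?_⟩
        rw [flat_cons, List.map_append]
        exact D_app hk hm
  | @r1 n m A γ α τ φ ψ a1 a2 a3 a4 ih3 ih4 =>
    intro c hc hF
    obtain ⟨c1, c2, rfl, h1, h2⟩ := List.map_eq_append_iff.1 hc
    obtain ⟨hF1, hF2⟩ := Fill_append.1 hF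
    obtain ⟨m1, hm1⟩ := ih3 c1 h1 hF1
    obtain ⟨m2, hm2⟩ := ih4 c2 h2 hF2
    refine ⟨m1 + m2 + 1, ?_⟩
    rw [flat_append, List.map_append]
    exact D.r1 (by simp [a1]) a2 hm1 hm2
  | @r2 n m A B f α τ φ ψ a1 a2 a3 a4 ih3 ih4 =>
    intro c hc hF
    obtain ⟨c1, c2, rfl, h1, h2⟩ := List.map_eq_append_iff.1 hc
    obtain ⟨hF1, hF2⟩ := Fill_append.1 hF
    obtain ⟨m1, hm1⟩ := ih3 c1 h1 hF1
    obtain ⟨m2, hm2⟩ := ih4 c2 h2 hF2
    refine ⟨m1 + m2 + 1, ?_⟩
    rw [flat_append, List.map_append]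
    exact D.r2 (by simp [a1]) a2 hm1 hm2
  | @r3 n m A f γ α τ φ ψ a1 a2 a3 ih2 ih3 =>
    intro c hc hF
    obtain ⟨c1, c2, rfl, h1, h2⟩ := List.map_eq_append_iff.1 hc
    obtain ⟨hF1, hF2⟩ := Fill_append.1 hF
    obtain ⟨m1, hm1⟩ := ih2 c1 h1 hF1
    obtain ⟨m2, hm2⟩ := ih3 c2 h2 hF2
    refine ⟨m1 + m2 + 1, ?_⟩
    rw [flat_append, List.map_append]
    exact D.r3 a1 hm1 hm2

theorem val_append {G : Type} [Group G] (ev : T → G) (u v : List T) :
    val ev (u ++ v) = val ev u * val ev v := by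
  simp [val]

/-- Items of a context with one value have one value. -/
theorem item_sing {G : Type} [Group G] (ev : T → G) {n : ℕ} {α : List (T ⊕ Γ.N)}
    {τ σ : List Γ.F} {c : List (Item Γ)} (hD : D Γ n α τ (form c)) (hF : Fill σ c)
    (hS : ∀ w m, D Γ m α (τ ++ σ) (w.map Sum.inl) → val ev w = val ev (flat c))
    (E : Γ.N) (u : List T) (b : Bool) (hm : Sum.inr (E, u, b) ∈ c) (u' : List T)
    (hu' : u' ∈ Lang Γ E σ) : val ev u' = val ev u := by
  obtain ⟨c1, c2, rfl⟩ := List.append_of_mem hm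
  have hform : form (c1 ++ (Sum.inr (E, u', b) : Item Γ) :: c2)
      = form (c1 ++ (Sum.inr (E, u, b) : Item Γ) :: c2) := by
    simp [form, isym]
  have hF' : Fill σ (c1 ++ (Sum.inr (E, u', b) : Item Γ) :: c2) := by
    intro A v b' hv
    simp only [List.mem_append, List.mem_cons] at hv
    rcases hv with hv | hv | hv
    · exact hF A v b' (by simp [hv])
    · simp only [Sum.inr.injEq, Prod.mk.injEq] at hv
      obtain ⟨rfl, rfl, rfl⟩ := hv
      exact hu'
    · exact hF A v b' (by simp [hv])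
  obtain ⟨m, hm'⟩ := D_fill hD _ hform hF'
  have h1 := hS _ m hm'
  rw [flat_append, flat_append, flat_cons, flat_cons, val_append, val_append, val_append,
    val_append] at h1
  have h2 := mul_left_cancel h1
  have h3 := mul_right_cancel h2
  exact h3

/-! ### Weights -/

theorem msum_append (μ : ℕ → ℝ) (l1 l2 : List Bool) : ∀ s,
    msum μ s (l1 ++ l2) = msum μ s l1 + msum μ (s + l1.length) l2 := by
  induction l1 with
  | nil => intro s; simp [msum]
  | cons b l ih =>
    intro s
    simp only [List.cons_append, msum, ih (s + 1), List.length_cons]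
    rw [show s + 1 + l.length = s + (l.length + 1) by omega]
    ring

theorem msum_nonneg (μ : ℕ → ℝ) (hμ : ∀ j, 0 ≤ μ j) (l : List Bool) : ∀ s, 0 ≤ msum μ s l := by
  induction l with
  | nil => intro s; exact le_rfl
  | cons b l ih =>
    intro s
    simp only [msum]
    have := ih (s + 1)
    have := hμ s
    split_ifs <;> linarith

theorem msum_true (μ : ℕ → ℝ) (n : ℕ) : ∀ s,
    msum μ s (List.replicate n true) = ∑ j ∈ Finset.Ico s (s + n), μ j := by
  induction n with
  | zero => intro s; simp [msum]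
  | succ n ih =>
    intro s
    rw [List.replicate_succ]
    simp only [msum, if_true, ih (s + 1)]
    rw [Finset.sum_eq_sum_Ico_succ_bot (by omega : s < s + (n + 1))]
    rw [show s + 1 + n = s + (n + 1) by omega]

theorem msum_false (μ : ℕ → ℝ) (n : ℕ) : ∀ s, msum μ s (List.replicate n false) = 0 := by
  induction n with
  | zero => intro s; simp [msum]
  | succ n ih =>
    intro s
    rw [List.replicate_succ]
    simp [msum, ih (s + 1)]

theorem msum_le (μ : ℕ → ℝ) (hμ : ∀ j, 0 ≤ μ j) (l : List Bool) : ∀ s,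
    msum μ s l ≤ msum μ s (List.replicate l.length true) := by
  induction l with
  | nil => intro s; simp [msum]
  | cons b l ih =>
    intro s
    rw [List.length_cons, List.replicate_succ]
    simp only [msum, if_true]
    have := ih (s + 1)
    have := hμ s
    split_ifs <;> linarith

/-! ### Pieces -/

/-- decomposition of an annotated form into pieces -/
inductive Pcs (Big : ℕ → ℕ → Prop) (f : Γ.F) (σ : List Γ.F) :
    ℕ → List (Item Γ) → List (Item Γ) → ℕ → Prop
  | nil (s : ℕ) : Pcs Big f σ s [] [] 0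
  | lt {s b : ℕ} {c1 c : List (Item Γ)} (t : T) : Pcs Big f σ (s + 1) c1 c b →
      Pcs Big f σ s (Sum.inl t :: c1) (Sum.inl t :: c) b
  | non {s b b0 : ℕ} {c1 c : List (Item Γ)} (E : Γ.N) (c0 : List (Item Γ)) (fl : Bool) :
      D Γ b0 [Sum.inr E] [f] (form c0) → Fill σ c0 →
      (fl = true ↔ Big s (s + (flat c0).length)) →
      Pcs Big f σ (s + (flat c0).length) c1 c b →
      Pcs Big f σ s (Sum.inr (E, flat c0, fl) :: c1) (c0 ++ c) (b0 + b)

theorem pcs_exists (Big : ℕ → ℕ → Prop) (f : Γ.F) (σ : List Γ.F) (ψ : List (T ⊕ Γ.N)) :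
    ∀ (b : ℕ) (c : List (Item Γ)) (s : ℕ), D Γ b ψ [f] (form c) → Fill σ c →
      ∃ c1, form c1 = ψ ∧ Pcs Big f σ s c1 c b := by
  classical
  induction ψ with
  | nil =>
    intro b c s hD _
    obtain ⟨rfl, h2⟩ := D_nil hD
    have : c = [] := by simpa [form] using h2
    subst this
    exact ⟨[], rfl, Pcs.nil s⟩
  | cons x ψ ih =>
    intro b c s hD hF
    cases x with
    | inl t =>
      obtain ⟨φ', h1, h2⟩ := D_term hD
      cases c with
      | nil => simp [form] at h1
      | cons y c =>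
        simp only [form, List.map_cons, List.cons.injEq] at h1
        obtain ⟨hx, hc⟩ := h1
        cases y with
        | inr y => simp [isym] at hx
        | inl t' =>
          simp only [isym, Sum.inl.injEq] at hx
          subst hx
          obtain ⟨c1, h3, h4⟩ := ih b c (s + 1) (by rw [form, hc]; exact h2)
            (Fill_append.1 (show Fill σ ([Sum.inl t'] ++ c) from hF)).2
          exact ⟨Sum.inl t' :: c1, by simp only [form, List.map_cons, isym] at h3 ⊢; rw [h3],
            Pcs.lt t' h4⟩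
    | inr E =>
      obtain ⟨n1, n2, φ1, φ2, rfl, h2, h3, h4⟩ := D_cons hD
      obtain ⟨c0, c', rfl, h5, h6⟩ := List.map_eq_append_iff.1 h2
      obtain ⟨hF1, hF2⟩ := Fill_append.1 hF
      obtain ⟨c1, h7, h8⟩ := ih n2 c' (s + (flat c0).length) (by rw [form, h6]; exact h4) hF2
      refine ⟨Sum.inr (E, flat c0, decide (Big s (s + (flat c0).length))) :: c1, ?_, ?_⟩
      · simp only [form, List.map_cons, isym] at h7 ⊢
        rw [h7]
      · exact Pcs.non E c0 _ (by rw [form, h5]; exact h3) hF1 (by simp) h8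

theorem pcs_data {Big : ℕ → ℕ → Prop} {f : Γ.F} {σ : List Γ.F} {s b : ℕ}
    {c1 c : List (Item Γ)} (h : Pcs Big f σ s c1 c b) :
    flat c1 = flat c ∧ Fill (f :: σ) c1 ∧ Flags Big s c1 := by
  induction h with
  | nil s => exact ⟨rfl, fun A u b hm => absurd hm (by simp), trivial⟩
  | lt t _ ih =>
    obtain ⟨h1, h2, h3⟩ := ih
    refine ⟨by rw [flat_cons, flat_cons, h1], ?_, h3⟩
    intro A u b hm
    simp only [List.mem_cons, reduceCtorEq, false_or] at hm
    exact h2 A u b hm
  | @non s b b0 c1 c E c0 fl hD hF hfl _ ih =>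
    obtain ⟨h1, h2, h3⟩ := ih
    refine ⟨by rw [flat_cons, flat_append, h1]; rfl, ?_, hfl, h3⟩
    intro A u b hm
    simp only [List.mem_cons, Sum.inr.injEq, Prod.mk.injEq] at hm
    rcases hm with ⟨rfl, rfl, rfl⟩ | hm
    · obtain ⟨m, hm⟩ := D_fill hD c0 rfl hF
      exact ⟨m, hm⟩
    · exact h2 A u b hm

/-! ### The main induction -/

section Main

variable {G : Type} [Group G]

/-- the conclusion -/
def Concl (ev : T → G) (Γ : Gram T) (k r : ℕ) (W : List T) (μ : ℕ → ℝ)
    (Big : ℕ → ℕ → Prop) : Prop :=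
  ∃ (X Z : List T) (A : Γ.N) (f : Γ.F) (σ : List Γ.F) (c : List (Item Γ)),
    W = X ++ flat c ++ Z ∧ (∃ n, D Γ n [Sum.inr A] [f] (form c)) ∧ Fill σ c ∧
    (∀ w ∈ Lang Γ A (f :: σ), val ev w = val ev (flat c)) ∧ Flags Big X.length c ∧
    (holes X.length c).length ≤ 3 * k ∧
    1 ≤ msum μ X.length (mask c) * (2 * (r + 3 * k + 1)) ∧ msum μ X.length (mask c) ≤ 1 / 2

/-- a located context with one value and large weight implies the conclusion -/
def Good (ev : T → G) (Γ : Gram T) (k r : ℕ) (W : List T) (μ : ℕ → ℝ)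
    (Big : ℕ → ℕ → Prop) (n : ℕ) : Prop :=
  ∀ (X Z : List T) (A : Γ.N) (f : Γ.F) (σ : List Γ.F) (c : List (Item Γ)),
    W = X ++ flat c ++ Z → D Γ n [Sum.inr A] [f] (form c) → Fill σ c →
    (∀ w ∈ Lang Γ A (f :: σ), val ev w = val ev (flat c)) → Flags Big X.length c →
    1 / 2 < msum μ X.length (mask c) → Concl ev Γ k r W μ Big

variable {ev : T → G} {k r : ℕ} {W : List T} {μ : ℕ → ℝ} {Big : ℕ → ℕ → Prop}

/-- at most `3 k` holes -/
def HolesOK (ev : T → G) (Γ : Gram T) (k : ℕ) (W : List T) (Big : ℕ → ℕ → Prop) : Prop :=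
  ∀ (X Z : List T) (A : Γ.N) (f : Γ.F) (σ : List Γ.F) (c : List (Item Γ)),
    W = X ++ flat c ++ Z → (∃ n, D Γ n [Sum.inr A] [f] (form c)) → Fill σ c →
    (∀ w ∈ Lang Γ A (f :: σ), val ev w = val ev (flat c)) → Flags Big X.length c →
    (holes X.length c).length ≤ 3 * k

/-- one piece -/
theorem piece (hH : HolesOK ev Γ k W Big) {n : ℕ}
    (hG : ∀ m < n, Good ev Γ k r W μ Big m) {b0 : ℕ} (hb0 : b0 < n) {X Z : List T} {E : Γ.N}
    {f : Γ.F} {σ : List Γ.F} {c0 : List (Item Γ)} (hW : W = X ++ flat c0 ++ Z)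
    (hD : D Γ b0 [Sum.inr E] [f] (form c0)) (hF : Fill σ c0)
    (hS : ∀ w ∈ Lang Γ E (f :: σ), val ev w = val ev (flat c0))
    (hFl : Flags Big X.length c0) :
    Concl ev Γ k r W μ Big ∨ msum μ X.length (mask c0) * (2 * (r + 3 * k + 1)) ≤ 1 := by
  by_cases h1 : 1 / 2 < msum μ X.length (mask c0)
  · exact Or.inl (hG b0 hb0 X Z E f σ c0 hW hD hF hS hFl h1)
  · by_cases h2 : 1 ≤ msum μ X.length (mask c0) * (2 * (r + 3 * k + 1))
    · exact Or.inl ⟨X, Z, E, f, σ, c0, hW, ⟨b0, hD⟩, hF, hS, hFl,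
        hH X Z E f σ c0 hW ⟨b0, hD⟩ hF hS hFl, h2, not_lt.1 h1⟩
    · exact Or.inr (not_le.1 h2).le

/-- comparison with the weight of the coarse form and with its length -/
theorem pcs_weight (hH : HolesOK ev Γ k W Big) {n : ℕ}
    (hG : ∀ m < n, Good ev Γ k r W μ Big m) (hμ : ∀ j, 0 ≤ μ j)
    (hlet : ∀ j, μ j * (4 * (r + 3 * k + 1)) ≤ 1) {f : Γ.F} {σ : List Γ.F} {s b : ℕ}
    {c1 c : List (Item Γ)} (h : Pcs Big f σ s c1 c b) : ∀ (X Z : List T), X.length = s →
      W = X ++ flat c ++ Z → b < n → Flags Big s c →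
      (∀ E u b, Sum.inr (E, u, b) ∈ c1 → ∀ u' ∈ Lang Γ E (f :: σ), val ev u' = val ev u) →
      Concl ev Γ k r W μ Big ∨
        (msum μ s (mask c) * (2 * (r + 3 * k + 1)) ≤
          msum μ s (mask c1) * (2 * (r + 3 * k + 1)) + (holes s c1).length ∧
        msum μ s (mask c) * (2 * (r + 3 * k + 1)) ≤ c1.length) := by
  have hR : (0 : ℝ) < 2 * (r + 3 * k + 1) := by positivity
  induction h with
  | nil s =>
    intro X Z _ _ _ _ _
    right
    simp [mask, msum, holes]
  | @lt s b c1 c t _ ih =>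
    intro X Z hX hW hb hFl hS
    have hW' : W = (X ++ [t]) ++ flat c ++ Z := by
      rw [hW, flat_cons]
      simp [iword]
    rcases ih (X ++ [t]) Z (by simp [hX]) hW' hb hFl
      (fun E u b hm => hS E u b (by simp [hm])) with h1 | ⟨h1, h2⟩
    · exact Or.inl h1
    · right
      have e1 : msum μ s (mask (Sum.inl t :: c : List (Item Γ))) = μ s + msum μ (s + 1) (mask c) := by
        rw [mask_cons]
        simp [imask, msum]
      have e2 : msum μ s (mask (Sum.inl t :: c1 : List (Item Γ))) = μ s + msum μ (s + 1) (mask c1) := by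
        rw [mask_cons]
        simp [imask, msum]
      have e3 : (holes s (Sum.inl t :: c1 : List (Item Γ))) = holes (s + 1) c1 := rfl
      have h3 := hlet s
      have h4 := hμ s
      rw [e1, e2, e3]
      refine ⟨by linarith, ?_⟩
      rw [List.length_cons]
      push_cast
      nlinarith
  | @non s b b0 c1 c E c0 fl hD hF hfl _ ih =>
    intro X Z hX hW hb hFl hS
    subst hX
    have hW1 : W = X ++ flat c0 ++ (flat c ++ Z) := by
      rw [hW, flat_append]
      simp
    have hW2 : W = (X ++ flat c0) ++ flat c ++ Z := by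
      rw [hW, flat_append]
      simp
    obtain ⟨hFl1, hFl2⟩ := (Flags_append c0 c X.length).1 hFl
    have hS0 : ∀ w ∈ Lang Γ E (f :: σ), val ev w = val ev (flat c0) :=
      hS E (flat c0) fl (by simp)
    rcases piece hH hG (by omega : b0 < n) hW1 hD hF hS0 hFl1 with h1 | h1
    · exact Or.inl h1
    rcases ih (X ++ flat c0) Z (by simp) hW2 (by omega) hFl2
      (fun E u b hm => hS E u b (by simp [hm])) with h2 | ⟨h2, h3⟩
    · exact Or.inl h2
    · right
      have e1 : msum μ X.length (mask (c0 ++ c)) = msum μ X.length (mask c0)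
          + msum μ (X.length + (flat c0).length) (mask c) := by
        rw [mask_append, msum_append, mask_length]
      have e2 : msum μ X.length (mask (Sum.inr (E, flat c0, fl) :: c1 : List (Item Γ)))
          = msum μ X.length (List.replicate (flat c0).length (!fl))
          + msum μ (X.length + (flat c0).length) (mask c1) := by
        rw [mask_cons, msum_append]
        simp [imask]
      constructor
      · cases fl with
        | true =>
          have e3 : (holes X.length (Sum.inr (E, flat c0, true) :: c1 : List (Item Γ))).length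
              = (holes (X.length + (flat c0).length) c1).length + 1 := rfl
          rw [e1, e2, e3]
          simp only [Bool.not_true, msum_false]
          push_cast
          linarith
        | false =>
          have e3 : (holes X.length (Sum.inr (E, flat c0, false) :: c1 : List (Item Γ))).length
              = (holes (X.length + (flat c0).length) c1).length := rfl
          rw [e1, e2, e3]
          have h5 := msum_le μ hμ (mask c0) X.length
          rw [mask_length] at h5
          simp only [Bool.not_false]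
          have h6 := mul_le_mul_of_nonneg_right h5 hR.le
          linarith
      · rw [e1, List.length_cons]
        push_cast
        linarith

/-- the weight of a form of letters, tiny items and holes -/
theorem tiny_weight
    (htiny : ∀ s t, s ≤ t → t ≤ W.length → ¬ Big s t →
      (∑ j ∈ Finset.Ico s t, μ j) * (4 * (r + 3 * k + 1)) ≤ 1)
    (hlet : ∀ j, μ j * (4 * (r + 3 * k + 1)) ≤ 1) (c : List (Item Γ)) :
    ∀ s, s + (flat c).length ≤ W.length → Flags Big s c →
      msum μ s (mask c) * (4 * (r + 3 * k + 1)) ≤ c.length := by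
  induction c with
  | nil => intro s _ _; simp [mask, msum]
  | cons x c ih =>
    intro s hs hFl
    rw [flat_cons, List.length_append] at hs
    cases x with
    | inl t =>
      have h1 := ih (s + 1) (by simp [iword] at hs; omega) hFl
      have e1 : msum μ s (mask (Sum.inl t :: c : List (Item Γ))) = μ s + msum μ (s + 1) (mask c) := by
        rw [mask_cons]
        simp [imask, msum]
      have h2 := hlet s
      rw [e1, List.length_cons]
      push_cast
      linarith
    | inr y =>
      obtain ⟨A, u, b⟩ := y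
      obtain ⟨hb, hFl'⟩ := hFl
      have hs' : s + (u.length + (flat c).length) ≤ W.length := hs
      have h1 := ih (s + u.length) (by omega) hFl'
      have e2 : msum μ s (mask (Sum.inr (A, u, b) :: c : List (Item Γ)))
          = msum μ s (List.replicate u.length (!b)) + msum μ (s + u.length) (mask c) := by
        rw [mask_cons, msum_append]
        simp [imask]
      rw [e2, List.length_cons]
      push_cast
      cases b with
      | true =>
        simp only [Bool.not_true, msum_false]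
        linarith
      | false =>
        have hnb : ¬ Big s (s + u.length) := fun h => by simpa using hb.2 h
        have h2 := htiny s (s + u.length) (by omega) (by omega) hnb
        simp only [Bool.not_false, msum_true]
        linarith

theorem main (hH : HolesOK ev Γ k W Big)
    (hr1 : ∀ A α, (A, α) ∈ Γ.R1 → α.length ≤ r)
    (hr3 : ∀ A f α, (A, f, α) ∈ Γ.R3 → α.length ≤ r) (hμ : ∀ j, 0 ≤ μ j)
    (htiny : ∀ s t, s ≤ t → t ≤ W.length → ¬ Big s t →
      (∑ j ∈ Finset.Ico s t, μ j) * (4 * (r + 3 * k + 1)) ≤ 1)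
    (hlet : ∀ j, μ j * (4 * (r + 3 * k + 1)) ≤ 1) (n : ℕ) : Good ev Γ k r W μ Big n := by
  induction n using Nat.strong_induction_on with
  | _ n IH =>
    intro X Z A f σ c hW hD hF hS hFl hbig
    have hR : (0 : ℝ) < 2 * (r + 3 * k + 1) := by positivity
    have hk0 : (0 : ℝ) ≤ k := Nat.cast_nonneg k
    have hr0 : (0 : ℝ) ≤ r := Nat.cast_nonneg r
    rcases D_inv hD with ⟨β, n1, hn1, hmem, hD1⟩ | ⟨B, g, n1, hn1, hmem, hD1⟩ |
      ⟨β, n1, hn1, hmem, hD1⟩
    · obtain ⟨c1, hc1, hP⟩ := pcs_exists Big f σ β n1 c X.length hD1 hF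
      obtain ⟨q1, q2, q3⟩ := pcs_data hP
      have hsing : ∀ E u b, Sum.inr (E, u, b) ∈ c1 →
          ∀ u' ∈ Lang Γ E (f :: σ), val ev u' = val ev u := by
        have hD0 : D Γ 0 β [] (form c1) := by rw [hc1]; exact D_refl β
        refine item_sing ev hD0 q2 ?_
        intro w m hw
        rw [q1]
        refine hS w ⟨m + 0 + 1, ?_⟩
        have := D.r1 (by simp : (f :: σ) ≠ []) hmem hw (D.nil _)
        simpa using this
      rcases pcs_weight hH IH hμ hlet hP X Z rfl hW hn1 hFl hsing with h1 | ⟨-, h1⟩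
      · exact h1
      · exfalso
        have hlen : c1.length ≤ r := by
          have : c1.length = β.length := by rw [← hc1]; simp [form]
          rw [this]
          exact hr1 A β hmem
        have hlen' : (c1.length : ℝ) ≤ r := by exact_mod_cast hlen
        nlinarith
    · obtain ⟨a, b, ψ, hab, hDa, hDb⟩ := D_stack hD1 [g] [f] rfl
      obtain ⟨c1, hc1, hP⟩ := pcs_exists Big f σ ψ b c X.length hDb hF
      obtain ⟨q1, q2, q3⟩ := pcs_data hP
      have hDc1 : D Γ a [Sum.inr B] [g] (form c1) := by rw [hc1]; exact hDa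
      have hS1 : ∀ w ∈ Lang Γ B (g :: f :: σ), val ev w = val ev (flat c1) := by
        rintro w ⟨m, hw⟩
        rw [q1]
        refine hS w ⟨m + 0 + 1, ?_⟩
        have := D.r2 (by simp : (f :: σ) ≠ []) hmem hw (D.nil _)
        simpa using this
      have hsing : ∀ E u b, Sum.inr (E, u, b) ∈ c1 →
          ∀ u' ∈ Lang Γ E (f :: σ), val ev u' = val ev u :=
        item_sing ev hDc1 q2 (fun w m hw => hS1 w ⟨m, hw⟩)
      have hWc1 : W = X ++ flat c1 ++ Z := by rw [q1]; exact hW
      rcases pcs_weight hH IH hμ hlet hP X Z rfl hW (by omega) hFl hsing with h1 | ⟨h1, -⟩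
      · exact h1
      rcases piece hH IH (by omega : a < n) hWc1 hDc1 q2 hS1 q3 with h2 | h2
      · exact h2
      · exfalso
        have h3 := hH X Z B g (f :: σ) c1 hWc1 ⟨a, hDc1⟩ q2 hS1 q3
        have h3' : ((holes X.length c1).length : ℝ) ≤ 3 * k := by exact_mod_cast h3
        nlinarith
    · exfalso
      have h1 : form c = β := D_empty hD1
      have hlen : c.length ≤ r := by
        have : c.length = β.length := by rw [← h1]; simp [form]
        rw [this]
        exact hr3 A f β hmem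
      have hlen' : (c.length : ℝ) ≤ r := by exact_mod_cast hlen
      have h2 := tiny_weight htiny hlet c X.length (by
        rw [hW]
        simp) hFl
      nlinarith

end Main

/-- BAL -/
theorem bal (hB : BholStmt) : BalStmt := by
  intro T G _ ev Γ k r W μ Big hk hr1 hr3 hval hWL hμ hsum _ htiny hlet hfour
  have hH : HolesOK ev Γ k W Big := by
    intro X Z A f σ c hW hD hF hS hFl
    exact hB T G _ ev Γ k W Big X Z A [f] σ c hk hfour hW hD hF hS hFl
  obtain ⟨n, hn⟩ := hWL
  have hgood := main (ev := ev) (W := W) (Big := Big) hH hr1 hr3 hμ htiny hlet n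
  have e1 : form (W.map Sum.inl : List (Item Γ)) = W.map Sum.inl := by
    simp [form, isym]
  have e2 : flat (W.map Sum.inl : List (Item Γ)) = W := by
    clear hn hgood e1 hH hfour htiny hsum
    induction W with
    | nil => rfl
    | cons t W ih =>
      rw [List.map_cons, flat_cons, ih]
      rfl
  have e3 : mask (W.map Sum.inl : List (Item Γ)) = List.replicate W.length true := by
    clear hn hgood e1 e2 hH hfour htiny hsum
    induction W with
    | nil => rfl
    | cons t W ih =>
      rw [List.map_cons, mask_cons, List.length_cons, List.replicate_succ, ← ih]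
      rfl
  have e4 : ∀ (W : List T) (s : ℕ), Flags Big s (W.map Sum.inl : List (Item Γ)) := by
    intro W
    induction W with
    | nil => intro s; trivial
    | cons t W ih => intro s; exact ih (s + 1)
  refine hgood [] [] Γ.S Γ.bot [] (W.map Sum.inl) (by simp [e2]) (by rw [e1]; exact hn) ?_ ?_
    (e4 W _) ?_
  · intro A u b hm
    simp at hm
  · intro w hw
    rw [e2, hval w hw, hval W ⟨n, hn⟩]
  · rw [e3, msum_true]
    simp only [List.length_nil, zero_add]
    rw [← Finset.range_eq_Ico, hsum]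
    norm_num

end Pool.Agent.Idx.H75B
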