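import Pool.Agent.Helper85_Idx.Stmts

/-!
Squad IDX (MP_429423_al), module UNIQ (helper75): for most payloads there are no four disjoint big
intervals with the same value.
-/

set_option autoImplicit false

namespace Pool.Agent.Idx.H75

open Pool.Agent.Idx

theorem word_length (S : Setup) {V : Type} {m : ℕ} (h : V → Fin m → Bool)
    (segs : List (Seg V S.T)) : (word S h segs).length = start S m segs segs.length := by
  have h1 : ∀ g : Seg V S.T, (segw S h g).length = slen S m g := by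
    intro g
    cases g with
    | pay e b => cases b <;> simp [segw, slen]
    | con u => simp [segw, slen]
  simp [word, start, List.length_flatten, List.map_map, Function.comp_def, h1]

/-- bad events -/
def Bad (S : Setup) {V : Type} (p l : ℕ) (segs : List (Seg V S.T)) (s t s' t' i i' : ℕ) (b : Bool)
    (j : ℕ) (h : V → Fin (p * l) → Bool) : Prop :=
  ∃ e, segs[i]? = some (Seg.pay e b) ∧ segs[i']? = some (Seg.pay e (!b)) ∧ j < p ∧ s ≤ t ∧
    s' ≤ t' ∧ (t ≤ s' ∨ t' ≤ s) ∧ t ≤ (word S h segs).length ∧ t' ≤ (word S h segs).length ∧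
    s ≤ blk S p l segs i b j ∧ blk S p l segs i b j + l ≤ t ∧
    (t ≤ blk S p l segs i' (!b) j ∨ blk S p l segs i' (!b) j + l ≤ s) ∧
    (t' ≤ blk S p l segs i' (!b) j ∨ blk S p l segs i' (!b) j + l ≤ s') ∧
    val S.ev (sl (word S h segs) s t) = val S.ev (sl (word S h segs) s' t')

theorem big_len (S : Setup) {V : Type} (p l : ℕ) (segs : List (Seg V S.T)) (s t : ℕ)
    (h : BigI S p l segs s t) : s + l ≤ t := by
  obtain ⟨i, e, b, j, -, -, h1, h2⟩ := h
  omega

/-- from an interval which is not closed to a bad event -/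
theorem open_bad (S : Setup) {V : Type} (p l : ℕ) (segs : List (Seg V S.T))
    (h : V → Fin (p * l) → Bool) (s t a₁ b₁ a₂ b₂ a₃ b₃ : ℕ) (hst : s ≤ t)
    (ht : t ≤ (word S h segs).length) (hn : ¬ ClosedI S p l segs s t)
    (h1 : a₁ ≤ b₁) (h12 : b₁ ≤ a₂) (h2 : a₂ ≤ b₂) (h23 : b₂ ≤ a₃) (h3 : a₃ ≤ b₃)
    (h4 : b₃ ≤ (word S h segs).length) (hbig : BigI S p l segs a₂ b₂)
    (d1 : t ≤ a₁ ∨ b₁ ≤ s) (d2 : t ≤ a₂ ∨ b₂ ≤ s) (d3 : t ≤ a₃ ∨ b₃ ≤ s)
    (e1 : val S.ev (sl (word S h segs) s t) = val S.ev (sl (word S h segs) a₁ b₁))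
    (e2 : val S.ev (sl (word S h segs) s t) = val S.ev (sl (word S h segs) a₂ b₂))
    (e3 : val S.ev (sl (word S h segs) s t) = val S.ev (sl (word S h segs) a₃ b₃)) :
    ∃ s' t' i i' b j, i < segs.length ∧ i' < segs.length ∧
      Bad S p l segs s t s' t' i i' b j h := by
  have hlen := big_len S p l segs a₂ b₂ hbig
  unfold ClosedI at hn
  push Not at hn
  obtain ⟨i, i', e, b, j, hi, hi', hj, hs, ht', hno⟩ := hn
  have hil : i < segs.length := (List.getElem?_eq_some_iff.1 hi).1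
  have hil' : i' < segs.length := (List.getElem?_eq_some_iff.1 hi').1
  have hdis : t ≤ blk S p l segs i' (!b) j ∨ blk S p l segs i' (!b) j + l ≤ s := by
    by_cases hc : s < blk S p l segs i' (!b) j + l
    · left
      have := hno hc
      omega
    · right
      omega
  by_cases c1 : b₁ ≤ blk S p l segs i' (!b) j ∨ blk S p l segs i' (!b) j + l ≤ a₁
  · exact ⟨a₁, b₁, i, i', b, j, hil, hil', e, hi, hi', hj, hst, h1, d1, ht, by omega, hs, ht',
      hdis, c1, e1⟩
  · exact ⟨a₃, b₃, i, i', b, j, hil, hil', e, hi, hi', hj, hst, h3, d3, ht, by omega, hs, ht',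
      hdis, by omega, e3⟩

theorem four_bad (S : Setup) {V : Type} (p l : ℕ) (segs : List (Seg V S.T))
    (hD : ClosedDist S p l segs) (h : V → Fin (p * l) → Bool) (hF : Four S p l segs h) :
    ∃ s t s' t' i i' b j, i < segs.length ∧ i' < segs.length ∧
      Bad S p l segs s t s' t' i i' b j h := by
  obtain ⟨s₁, t₁, s₂, t₂, s₃, t₃, s₄, t₄, a1, a2, a3, a4, a5, a6, a7, a8, b1, b2, b3, b4,
    e2, e3, e4⟩ := hF
  by_cases hc1 : ClosedI S p l segs s₁ t₁
  · have hc2 : ¬ ClosedI S p l segs s₂ t₂ := fun hc2 =>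
      hD h s₁ t₁ s₂ t₂ a1 a2 a3 (by omega) b1 b2 hc1 hc2 e2
    obtain ⟨s', t', i, i', b, j, hh⟩ := open_bad S p l segs h s₂ t₂ s₁ t₁ s₃ t₃ s₄ t₄ a3 (by omega)
      hc2 a1 (by omega) a5 a6 a7 a8 b3 (by omega) (by omega) (by omega) e2.symm
      (e2.symm.trans e3) (e2.symm.trans e4)
    exact ⟨s₂, t₂, s', t', i, i', b, j, hh⟩
  · obtain ⟨s', t', i, i', b, j, hh⟩ := open_bad S p l segs h s₁ t₁ s₂ t₂ s₃ t₃ s₄ t₄ a1 (by omega)
      hc1 a3 a4 a5 a6 a7 a8 b3 (by omega) (by omega) (by omega) e2 e3 e4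
    exact ⟨s₁, t₁, s', t', i, i', b, j, hh⟩

open Classical in
/-- replacing a block -/
noncomputable def rep {V : Type} {p l : ℕ} (e : V) (j : ℕ) (h : V → Fin (p * l) → Bool)
    (y : Fin l → Bool) : V → Fin (p * l) → Bool :=
  fun e' x => if hx : e' = e ∧ j * l ≤ x.val ∧ x.val < j * l + l then
    y ⟨x.val - j * l, by omega⟩ else h e' x

theorem bad_card (hO : OneStmt) (S : Setup) (V : Type) [Finite V] (p l : ℕ)
    (segs : List (Seg V S.T)) (hT : Twice S segs) (s t s' t' i i' : ℕ) (b : Bool) (j : ℕ) :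
    Nat.card {h : V → Fin (p * l) → Bool // Bad S p l segs s t s' t' i i' b j h} * 2 ^ l ≤
      Nat.card (V → Fin (p * l) → Bool) := by
  by_cases hex : ∃ e, segs[i]? = some (Seg.pay e b)
  swap
  · have : IsEmpty {h : V → Fin (p * l) → Bool // Bad S p l segs s t s' t' i i' b j h} :=
      ⟨fun ⟨h, e, he, _⟩ => hex ⟨e, he⟩⟩
    rw [Nat.card_of_isEmpty, zero_mul]
    exact Nat.zero_le _
  obtain ⟨e, he⟩ := hex
  by_cases hj : j < p
  swap
  · have : IsEmpty {h : V → Fin (p * l) → Bool // Bad S p l segs s t s' t' i i' b j h} :=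
      ⟨fun ⟨h, e, _, _, hj', _⟩ => hj hj'⟩
    rw [Nat.card_of_isEmpty, zero_mul]
    exact Nat.zero_le _
  have hcard : Nat.card (Fin l → Bool) = 2 ^ l := by simp
  rw [← hcard, ← Nat.card_prod]
  refine Nat.card_le_card_of_injective (fun x => rep e j x.1.1 x.2) ?_
  rintro ⟨⟨h, hb⟩, y⟩ ⟨⟨h', hb'⟩, y'⟩ heq
  have heq' : rep e j h y = rep e j h' y' := heq
  have hoff : ∀ e' x, (e' ≠ e ∨ x.val < j * l ∨ (j + 1) * l ≤ x.val) → h' e' x = h e' x := by
    intro e' x hx
    have h1 := congrFun (congrFun heq' e') x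
    have h2 : ¬ (e' = e ∧ j * l ≤ x.val ∧ x.val < j * l + l) := by
      rintro ⟨q1, q2, q3⟩
      rcases hx with hx | hx | hx
      · exact hx q1
      · omega
      · have : (j + 1) * l = j * l + l := by ring
        omega
    simp only [rep, dif_neg h2] at h1
    exact h1.symm
  obtain ⟨e0, g1, g2, -, g4, g5, g6, g7, g8, g9, g10, g11, g12, g13⟩ := hb
  obtain ⟨e0', g1', -, -, -, -, -, -, -, -, -, -, -, g13'⟩ := hb'
  have q0 : e0 = e := by
    rw [g1] at he
    simp only [Option.some.injEq, Seg.pay.injEq, and_true] at he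
    exact he
  subst q0
  have hh : h' = h := hO S V p l segs h h' s t s' t' i i' e0 b j hT g4 g5 g6 g7 g8 g1 g2 hj g9
    g10 g11 g12 hoff g13 g13'
  subst hh
  have hy : y = y' := by
    funext k
    have hk : j * l + k.val < p * l := by
      have : (j + 1) * l ≤ p * l := Nat.mul_le_mul_right l hj
      have h3 : (j + 1) * l = j * l + l := by ring
      have := k.2
      omega
    have h1 := congrFun (congrFun heq' e0) ⟨j * l + k.val, hk⟩
    have h2 : e0 = e0 ∧ j * l ≤ (⟨j * l + k.val, hk⟩ : Fin (p * l)).val ∧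
        (⟨j * l + k.val, hk⟩ : Fin (p * l)).val < j * l + l := by
      refine ⟨rfl, ?_, ?_⟩
      · show j * l ≤ j * l + k.val
        omega
      · show j * l + k.val < j * l + l
        have := k.2
        omega
    simp only [rep] at h1
    simpa using h1
  subst hy
  rfl

theorem expo (K p : ℕ) : ∃ l₀ : ℕ, ∀ l, l₀ ≤ l →
    2 * ((K * (l + 1) + 1) ^ 4 * (K ^ 2 * 2 * p)) ≤ 2 ^ l := by
  have h1 := tendsto_pow_const_div_const_pow_of_one_lt 4 (one_lt_two : (1 : ℝ) < 2)
  have h2 := h1.comp (Filter.tendsto_add_atTop_nat 1)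
  have hC : (0 : ℝ) < 1 / (2 * (2 * ((K + 1) ^ 4 * (K ^ 2 * 2 * p + 1)))) := by positivity
  have h3 := h2.eventually (gt_mem_nhds hC)
  obtain ⟨l₀, hl⟩ := Filter.eventually_atTop.1 h3
  refine ⟨l₀, fun l hll => ?_⟩
  have h4 := hl l hll
  simp only [Function.comp_apply] at h4
  rw [div_lt_iff₀ (by positivity), one_div, inv_mul_eq_div, lt_div_iff₀ (by positivity)] at h4
  have h5 : ((2 * ((K * (l + 1) + 1) ^ 4 * (K ^ 2 * 2 * p)) : ℕ) : ℝ) ≤ ((2 ^ l : ℕ) : ℝ) := by
    push_cast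
    push_cast at h4
    have h6 : ((K : ℝ) * (l + 1) + 1) ≤ (K + 1) * (l + 1) := by nlinarith [(Nat.cast_nonneg l : (0 : ℝ) ≤ l)]
    have h7 : ((K : ℝ) * (l + 1) + 1) ^ 4 ≤ ((K + 1) * (l + 1)) ^ 4 :=
      pow_le_pow_left₀ (by positivity) h6 4
    have h8 : (2 : ℝ) ^ (l + 1) = 2 * 2 ^ l := by ring
    rw [h8] at h4
    have h9 : 2 * (((K : ℝ) * (l + 1) + 1) ^ 4 * (K ^ 2 * 2 * p))
        ≤ 2 * (((K + 1) * (l + 1)) ^ 4 * (K ^ 2 * 2 * p + 1)) := by
      gcongr
      linarith
    have h10 : 2 * ((((K : ℝ) + 1) * (l + 1)) ^ 4 * (K ^ 2 * 2 * p + 1)) * 2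
        = ((l : ℝ) + 1) ^ 4 * (2 * (2 * ((K + 1) ^ 4 * (K ^ 2 * 2 * p + 1)))) := by ring
    nlinarith
  exact_mod_cast h5

open Classical in
theorem uniq (hO : OneStmt) : UniqStmt := by
  intro S V _ p K segs hp hT hlen hK hD
  obtain ⟨l₀, hl₀⟩ := expo K p
  refine ⟨l₀ + 1, fun l hl => ?_⟩
  have hl1 : 1 ≤ l := by omega
  have hexp := hl₀ l (by omega)
  have : Fintype V := Fintype.ofFinite V
  set H : Type := V → Fin (p * l) → Bool with hH
  set n : ℕ := K * (l + 1) with hn
  set I : Type := Fin (n + 1) × Fin (n + 1) × Fin (n + 1) × Fin (n + 1) × Fin K × Fin K × Bool ×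
    Fin p with hI
  set P : I → H → Prop := fun E h => Bad S p l (segs l) E.1 E.2.1 E.2.2.1 E.2.2.2.1 E.2.2.2.2.1
    E.2.2.2.2.2.1 E.2.2.2.2.2.2.1 E.2.2.2.2.2.2.2 h with hP
  have hsub : (Finset.univ.filter fun h : H => Four S p l (segs l) h) ⊆
      (Finset.univ : Finset I).biUnion fun E => Finset.univ.filter fun h : H => P E h := by
    intro h hh
    simp only [Finset.mem_filter, Finset.mem_univ, true_and] at hh
    obtain ⟨s, t, s', t', i, i', b, j, hi, hi', hb⟩ :=
      four_bad S p l (segs l) (hD l hl1) h hh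
    have hb' := hb
    obtain ⟨e, -, -, hj, h1, h2, -, h3, h4, -⟩ := hb'
    have hw : (word S h (segs l)).length ≤ n := by
      rw [word_length]
      exact hlen l
    have hKl := hK l
    simp only [Finset.mem_biUnion, Finset.mem_univ, true_and, Finset.mem_filter]
    exact ⟨(⟨s, by omega⟩, ⟨t, by omega⟩, ⟨s', by omega⟩, ⟨t', by omega⟩, ⟨i, by omega⟩,
      ⟨i', by omega⟩, b, ⟨j, hj⟩), hb⟩
  have hcard1 : Nat.card {h : H // Four S p l (segs l) h} =
      (Finset.univ.filter fun h : H => Four S p l (segs l) h).card := by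
    rw [Nat.card_eq_fintype_card, Fintype.card_subtype]
  have hle : (Finset.univ.filter fun h : H => Four S p l (segs l) h).card * 2 ^ l ≤
      Fintype.card I * Nat.card H := by
    calc (Finset.univ.filter fun h : H => Four S p l (segs l) h).card * 2 ^ l
        ≤ ((Finset.univ : Finset I).biUnion fun E => Finset.univ.filter fun h : H => P E h).card
          * 2 ^ l := Nat.mul_le_mul_right _ (Finset.card_le_card hsub)
      _ ≤ (∑ E : I, (Finset.univ.filter fun h : H => P E h).card) * 2 ^ l :=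
          Nat.mul_le_mul_right _ Finset.card_biUnion_le
      _ = ∑ E : I, (Finset.univ.filter fun h : H => P E h).card * 2 ^ l := by
          rw [Finset.sum_mul]
      _ ≤ ∑ E : I, Nat.card H := by
          refine Finset.sum_le_sum fun E _ => ?_
          have := bad_card hO S V p l (segs l) (hT l) E.1 E.2.1 E.2.2.1 E.2.2.2.1 E.2.2.2.2.1
            E.2.2.2.2.2.1 E.2.2.2.2.2.2.1 E.2.2.2.2.2.2.2
          rw [Nat.card_eq_fintype_card, Fintype.card_subtype] at this
          exact this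
      _ = Fintype.card I * Nat.card H := by
          rw [Finset.sum_const, Finset.card_univ, smul_eq_mul]
  have hI' : Fintype.card I = (n + 1) ^ 4 * (K ^ 2 * 2 * p) := by
    simp only [hI, Fintype.card_prod, Fintype.card_fin, Fintype.card_bool]
    ring
  rw [hcard1]
  have h3 : 2 * (Finset.univ.filter fun h : H => Four S p l (segs l) h).card * 2 ^ l ≤
      Nat.card H * 2 ^ l := by
    calc 2 * (Finset.univ.filter fun h : H => Four S p l (segs l) h).card * 2 ^ l
        = 2 * ((Finset.univ.filter fun h : H => Four S p l (segs l) h).card * 2 ^ l) := by ring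
      _ ≤ 2 * (Fintype.card I * Nat.card H) := Nat.mul_le_mul_left _ hle
      _ = (2 * Fintype.card I) * Nat.card H := by ring
      _ ≤ 2 ^ l * Nat.card H := Nat.mul_le_mul_right _ (by rw [hI']; exact hexp)
      _ = Nat.card H * 2 ^ l := by ring
  exact Nat.le_of_mul_le_mul_right h3 (by positivity)

end Pool.Agent.Idx.H75
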